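import Mathlib

/-!
Odd wheels, stars, vertex-disjoint unions.
-/

namespace Pool.Agent.MP_f45649_co

open SimpleGraph

/-- The odd wheel `W_{2k+1}`: a hub (`none`) joined to all vertices of the cycle `C_{2k}`. -/
def oddWheel (k : ℕ) : SimpleGraph (Option (Fin (2 * k))) where
  Adj x y := match x, y with
    | none, none => False
    | none, some _ => True
    | some _, none => True
    | some a, some b => (cycleGraph (2 * k)).Adj a b
  symm := by
    constructor
    rintro (_ | a) (_ | b) h
    · exact h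
    · trivial
    · trivial
    · exact SimpleGraph.Adj.symm h
  loopless := by
    constructor
    rintro (_ | a) h
    · exact h
    · exact (cycleGraph (2 * k)).loopless.irrefl a h

/-- The star `S_{k+1} = K_{1,k}` with centre `none` and `k` leaves. -/
def kStar (k : ℕ) : SimpleGraph (Option (Fin k)) := starGraph none

/-- The vertex-disjoint union of the graphs `G i`. -/
def disjointUnion {m : ℕ} {V : Fin m → Type} (G : ∀ i, SimpleGraph (V i)) :
    SimpleGraph (Σ i, V i) where
  Adj x y := ∃ (i : Fin m) (a b : V i), x = ⟨i, a⟩ ∧ y = ⟨i, b⟩ ∧ (G i).Adj a b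
  symm := by
    constructor
    rintro x y ⟨i, a, b, h1, h2, h3⟩
    exact ⟨i, b, a, h2, h1, h3.symm⟩
  loopless := by
    constructor
    rintro x ⟨i, a, b, h1, h2, h3⟩
    rw [h1] at h2
    have : a = b := by simpa using h2
    rw [this] at h3
    exact (G i).loopless.irrefl b h3

/-- `F = W_{2k_1+1} ∪ … ∪ W_{2k_m+1}`. -/
def wheels {m : ℕ} (k : Fin m → ℕ) : SimpleGraph (Σ i, Option (Fin (2 * k i))) :=
  disjointUnion (fun i => oddWheel (k i))

/-- `F* = S_{k_1+1} ∪ … ∪ S_{k_m+1}`. -/
def stars {m : ℕ} (k : Fin m → ℕ) : SimpleGraph (Σ i, Option (Fin (k i))) :=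
  disjointUnion (fun i => kStar (k i))

/-- The value `max_{1 ≤ n₀ ≤ n} (n₀ (n - n₀) + ex(n₀, F*) + 1)`. -/
noncomputable def posedValue {m : ℕ} (k : Fin m → ℕ) (n : ℕ) : ℕ :=
  (Finset.Icc 1 n).sup (fun n₀ => n₀ * (n - n₀) + extremalNumber n₀ (stars k) + 1)

end Pool.Agent.MP_f45649_co
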