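import Mathlib
import Pool.Agent.Lib.MP_f45649_co.Mg.G001
import Pool.Agent.Lib.MP_f45649_co.Mg.G002
import Pool.Agent.Lib.MP_f45649_co.Mg.G003

/-!
The extremal numbers of disjoint unions of odd wheels.
-/

namespace Pool.Agent.MP_f45649_co

open SimpleGraph Finset

lemma half_mul (n : ℕ) : n * n ≤ 4 * ((n - n / 2) * (n / 2)) + 1 := by
  rcases Nat.even_or_odd' n with ⟨t, ht | ht⟩
  · have e1 : n / 2 = t := by omega
    have e2 : n - t = t := by omega
    rw [e1, e2, ht]
    nlinarith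
  · have e1 : n / 2 = t := by omega
    have e2 : n - t = t + 1 := by omega
    rw [e1, e2, ht]
    nlinarith

/-- For large `n` the maximum is attained at a large argument. -/
lemma gval_le_large (κ a₀ : ℕ) {n x : ℕ} (hn : 4 * a₀ + 4 * κ + 8 ≤ n)
    (h : ∀ a b, a + b = n → a₀ ≤ a → 2 ≤ b → a * b + ((κ - 1) * a) / 2 + 1 ≤ x) :
    gval κ n ≤ x := by
  apply gval_le
  intro a b hab
  have h0 := h (n - n / 2) (n / 2) (by omega) (by omega) (by omega)
  have h1 := half_mul n
  have hbig : (4 * a₀ + 4 * κ + 8) * n ≤ n * n := Nat.mul_le_mul_right _ hn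
  have hexp : (4 * a₀ + 4 * κ + 8) * n = 4 * (a₀ * n) + 4 * (κ * n) + 8 * n := by ring
  by_cases ha : a₀ ≤ a
  · by_cases hb : 2 ≤ b
    · exact h a b hab ha hb
    · have e1 : a * b ≤ n := by
        have : a * b ≤ a * 1 := Nat.mul_le_mul_left _ (by omega)
        omega
      have e2 : (κ - 1) * a ≤ κ * n := Nat.mul_le_mul (by omega) (by omega)
      have e3 : (κ - 1) * a / 2 ≤ κ * n := le_trans (Nat.div_le_self _ _) e2
      omega
  · have e1 : a * b ≤ a₀ * n := Nat.mul_le_mul (by omega) (by omega)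
    have e2 : (κ - 1) * a ≤ κ * n := Nat.mul_le_mul (by omega) (by omega)
    have e3 : (κ - 1) * a / 2 ≤ κ * n := le_trans (Nat.div_le_self _ _) e2
    omega

/-- Uniform threshold over the indices. -/
lemma exists_uniform {m : ℕ} (P : Fin m → ℕ → Prop) (h : ∀ i, ∃ n₁, ∀ n, n₁ ≤ n → P i n) :
    ∃ n₁, ∀ n, n₁ ≤ n → ∀ i, P i n := by
  choose f hf using h
  refine ⟨∑ i, f i, fun n hn i => hf i n ?_⟩
  exact le_trans (Finset.single_le_sum (f := f) (fun _ _ => Nat.zero_le _) (Finset.mem_univ i)) hn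

lemma tval_le_ex {m : ℕ} (k : Fin m → ℕ) (hanti : Antitone k) (hk : ∀ i, 2 ≤ k i) :
    ∃ n₁, ∀ n, n₁ ≤ n → ∀ i : Fin m, tval i (k i) n ≤ extremalNumber n (wheels k) := by
  apply exists_uniform (P := fun i n => tval i (k i) n ≤ extremalNumber n (wheels k))
  intro i
  refine ⟨i + (4 * (k i * k i + k i + 1) + 4 * k i + 8), fun n hn => ?_⟩
  obtain ⟨N, rfl⟩ : ∃ N, n = i + N := ⟨n - i, by omega⟩
  unfold tval
  rw [Nat.add_sub_cancel_left]
  have h1 : gval (k i) N ≤ extremalNumber (i + N) (wheels k) - ((i : ℕ).choose 2 + i * N) := by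
    apply gval_le_large (k i) (k i * k i + k i + 1) (by omega)
    intro a b hab ha hb
    have h2 := lower_T k hanti hk i ha hb
    rw [hab] at h2
    omega
  have h3 := lower_T k hanti hk i (a := k i * k i + k i + 1) (b := N - (k i * k i + k i + 1))
    (le_refl _) (by omega)
  have h4 : k i * k i + k i + 1 + (N - (k i * k i + k i + 1)) = N := by omega
  rw [h4] at h3
  omega

/-- The exact value. -/
theorem exact_value {m : ℕ} (hm : 1 ≤ m) (k : Fin m → ℕ) (hanti : Antitone k)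
    (hk : ∀ i, 2 ≤ k i) :
    ∃ n₁, ∀ n, n₁ ≤ n → extremalNumber n (wheels k) = Val k n := by
  obtain ⟨m, rfl⟩ : ∃ m', m = m' + 1 := ⟨m - 1, by omega⟩
  obtain ⟨n₁, h1⟩ := upper m k hk
  obtain ⟨n₂, h2⟩ := tval_le_ex k hanti hk
  refine ⟨n₁ + n₂ + m, fun n hn => le_antisymm (h1 n (by omega)) ?_⟩
  exact Val_le (h2 n (by omega)) (lower_Th hm k hk (by omega))

/-- The one-sided values. -/
def oneSided {m : ℕ} (k : Fin m → ℕ) (n : ℕ) : ℕ := univ.sup (fun i : Fin m => tval i (k i) n)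

lemma posed_ge {m : ℕ} (k : Fin m → ℕ) (hanti : Antitone k) (hk : ∀ i, 2 ≤ k i) :
    ∃ n₁, ∀ n, n₁ ≤ n → ∀ i : Fin m, tval i (k i) n ≤ posedValue k n := by
  apply exists_uniform (P := fun i n => tval i (k i) n ≤ posedValue k n)
  intro i
  refine ⟨i + (4 * (k i * k i + k i + 1) + 4 * k i + 8), fun n hn => ?_⟩
  obtain ⟨N, rfl⟩ : ∃ N, n = i + N := ⟨n - i, by omega⟩
  have key : ∀ a b, a + b = N → k i * k i + k i + 1 ≤ a → 2 ≤ b →
      (i : ℕ).choose 2 + i * N + (a * b + ((k i - 1) * a) / 2 + 1) ≤ posedValue k (i + N) := by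
    intro a b hab ha hb
    have h1 := lower_S k hanti hk i ha
    have h2 : (i + a : ℕ) ∈ Finset.Icc 1 (i + N) := Finset.mem_Icc.2 ⟨by omega, by omega⟩
    have h3 : (i + a : ℕ) * (i + N - (i + a)) + extremalNumber (i + a) (stars k) + 1 ≤
        posedValue k (i + N) :=
      Finset.le_sup (f := fun n₀ => n₀ * (i + N - n₀) + extremalNumber n₀ (stars k) + 1) h2
    have h4 : (i : ℕ) + N - (i + a) = b := by omega
    rw [h4] at h3
    unfold sval at h1
    rw [Nat.add_sub_cancel_left] at h1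
    have h5 : ((i : ℕ) + a) * b = i * b + a * b := by ring
    have h6 : (i : ℕ) * N = i * a + i * b := by rw [← hab]; ring
    omega
  unfold tval
  rw [Nat.add_sub_cancel_left]
  have h1 : gval (k i) N ≤ posedValue k (i + N) - ((i : ℕ).choose 2 + i * N) := by
    apply gval_le_large (k i) (k i * k i + k i + 1) (by omega)
    intro a b hab ha hb
    have h2 := key a b hab ha hb
    omega
  have h3 := key (k i * k i + k i + 1) (N - (k i * k i + k i + 1)) (by omega) (le_refl _)
    (by omega)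
  omega

lemma posed_le {m : ℕ} (hm : 1 ≤ m) (k : Fin m → ℕ) :
    ∃ n₁, ∀ n, n₁ ≤ n → posedValue k n ≤ oneSided k n := by
  obtain ⟨m, rfl⟩ : ∃ m', m = m' + 1 := ⟨m - 1, by omega⟩
  obtain ⟨n₁, h1⟩ := stars_upper m k
  obtain ⟨n₂, hn₂⟩ : ∃ n₂, n₂ = n₁ + m + 1 := ⟨_, rfl⟩
  obtain ⟨C, hC⟩ : ∃ C, C = (range n₂).sup (fun n₀ => extremalNumber n₀ (stars k)) := ⟨_, rfl⟩
  refine ⟨4 * n₂ + 4 * C + 8, fun n hn => ?_⟩
  unfold posedValue
  apply Finset.sup_le
  intro n₀ hn₀
  obtain ⟨ha, hb⟩ := Finset.mem_Icc.1 hn₀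
  by_cases hlarge : n₂ ≤ n₀
  · have h2 := h1 n₀ (by omega)
    obtain ⟨i, _, hi⟩ := Finset.exists_mem_eq_sup (univ : Finset (Fin (m + 1)))
      Finset.univ_nonempty (fun i : Fin (m + 1) => sval i (k i) n₀)
    unfold Sval at h2
    rw [hi] at h2
    have hilt := i.isLt
    obtain ⟨a, rfl⟩ : ∃ a, n₀ = i + a := ⟨n₀ - i, by omega⟩
    obtain ⟨b, rfl⟩ : ∃ b, n = i + a + b := ⟨n - (i + a), by omega⟩
    refine le_trans ?_ (Finset.le_sup (f := fun i' : Fin (m + 1) => tval i' (k i') (i + a + b))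
      (Finset.mem_univ i))
    unfold sval at h2
    rw [Nat.add_sub_cancel_left] at h2
    unfold tval
    have e1 : (i : ℕ) + a + b - i = a + b := by omega
    have e2 : (i : ℕ) + a + b - (i + a) = b := by omega
    have h3 := gval_ge (k := k i) (n := a + b) (a := a) (b := b) rfl
    rw [e1, e2]
    have h5 : ((i : ℕ) + a) * b = i * b + a * b := by ring
    have h6 : (i : ℕ) * (a + b) = i * a + i * b := by ring
    omega
  · have e1 : extremalNumber n₀ (stars k) ≤ C := by
      rw [hC]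
      exact Finset.le_sup (f := fun n₀ => extremalNumber n₀ (stars k))
        (Finset.mem_range.2 (by omega))
    have e2 : n₀ * (n - n₀) ≤ n₂ * n := Nat.mul_le_mul (by omega) (by omega)
    refine le_trans ?_ (Finset.le_sup (f := fun i : Fin (m + 1) => tval i (k i) n)
      (Finset.mem_univ 0))
    have e3 : tval (((0 : Fin (m + 1)) : ℕ)) (k 0) n = gval (k 0) n := by
      unfold tval
      simp
    rw [e3]
    have e4 := gval_ge (k := k 0) (n := n) (a := n - n / 2) (b := n / 2) (by omega)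
    have e5 := half_mul n
    have e6 : (4 * n₂ + 4 * C + 8) * n ≤ n * n := Nat.mul_le_mul_right _ hn
    have e7 : (4 * n₂ + 4 * C + 8) * n = 4 * (n₂ * n) + 4 * (C * n) + 8 * n := by ring
    have e8 : C ≤ C * n := Nat.le_mul_of_pos_right C (by omega)
    omega

lemma theta_le {t κ N : ℕ} (hκ : 2 * (t + 1) + 1 ≤ κ) (hN : t ≤ N) :
    t.choose 2 + t * (N - t) + thval (N - t) ≤ gval κ N := by
  obtain ⟨M, rfl⟩ : ∃ M, N = t + M := ⟨N - t, by omega⟩
  rw [Nat.add_sub_cancel_left]
  have hch : 2 * t.choose 2 = t * (t - 1) := by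
    rw [Nat.choose_two_right]
    exact Nat.mul_div_cancel' (Nat.even_mul_pred_self t).two_dvd
  have hch' : t * (t - 1) ≤ t * t := Nat.mul_le_mul_left _ (Nat.sub_le _ _)
  -- one ordered version
  have key : ∀ x y, x + y = M → y ≤ x →
      t.choose 2 + t * M + (x * y + x / 2 + y / 2) ≤ gval κ (t + M) := by
    intro x y hxy hle
    have h1 := gval_ge (k := κ) (n := t + M) (a := t + x) (b := y) (by omega)
    have h2 : (2 * (t + 1)) * (t + x) ≤ (κ - 1) * (t + x) := Nat.mul_le_mul_right _ (by omega)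
    have h3 : (2 * (t + 1)) * (t + x) = 2 * ((t + 1) * (t + x)) := by ring
    have h4 : (t + 1) * (t + x) ≤ (κ - 1) * (t + x) / 2 := by omega
    have h5 : (t + 1) * (t + x) = t * t + t + t * x + x := by ring
    have h6 : (t + x) * y = t * y + x * y := by ring
    have h7 : t * M = t * x + t * y := by rw [← hxy]; ring
    omega
  have h1 : thval M ≤ gval κ (t + M) - (t.choose 2 + t * M) := by
    apply thval_le
    intro x y hxy
    rcases le_total x y with h | h
    · have := key y x (by omega) h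
      have e1 : x * y = y * x := mul_comm _ _
      omega
    · have := key x y hxy h
      omega
  have h2 := key M 0 (by omega) (Nat.zero_le _)
  omega

lemma Thval_le_tval {m : ℕ} (k : Fin m → ℕ) (i : Fin m) (hi : 2 * (m - i) + 1 ≤ k i) {n : ℕ}
    (hn : m ≤ n) : Thval (m - 1) n ≤ tval i (k i) n := by
  have hilt := i.isLt
  obtain ⟨t, ht⟩ : ∃ t, m - 1 = i + t := ⟨m - 1 - i, by omega⟩
  obtain ⟨N, rfl⟩ : ∃ N, n = i + N := ⟨n - i, by omega⟩
  have h1 := theta_le (t := t) (κ := k i) (N := N) (by omega) (by omega)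
  unfold Thval tval
  rw [ht, Nat.add_sub_cancel_left]
  have e1 : (i : ℕ) + N - (i + t) = N - t := by omega
  rw [e1]
  have e2 : ∀ a b : ℕ, 2 * (a + b).choose 2 = 2 * a.choose 2 + 2 * b.choose 2 + 2 * (a * b) := by
    intro a b
    have hc : ∀ s : ℕ, 2 * s.choose 2 = s * (s - 1) := fun s => by
      rw [Nat.choose_two_right]
      exact Nat.mul_div_cancel' (Nat.even_mul_pred_self s).two_dvd
    rw [hc, hc, hc]
    rcases a with _ | a
    · simp
    · rcases b with _ | b
      · simp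
      · have g1 : a + 1 + (b + 1) - 1 = a + b + 1 := by omega
        rw [g1, Nat.add_sub_cancel, Nat.add_sub_cancel]
        ring
  have e3 := e2 i t
  obtain ⟨M, rfl⟩ : ∃ M, N = t + M := ⟨N - t, by omega⟩
  rw [Nat.add_sub_cancel_left] at h1 ⊢
  have e4 : ((i : ℕ) + t) * M = i * M + t * M := by ring
  have e5 : (i : ℕ) * (t + M) = i * t + i * M := by ring
  omega

/-- The extremal number is the larger of the posed value and the value of the construction with
two matchings. -/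
theorem main_value {m : ℕ} (hm : 1 ≤ m) (k : Fin m → ℕ) (hanti : Antitone k)
    (hk : ∀ i, 2 ≤ k i) :
    ∃ n₁, ∀ n, n₁ ≤ n →
      extremalNumber n (wheels k) = max (posedValue k n) (Thval (m - 1) n) := by
  obtain ⟨n₁, h1⟩ := exact_value hm k hanti hk
  obtain ⟨n₂, h2⟩ := posed_ge k hanti hk
  obtain ⟨n₃, h3⟩ := posed_le hm k
  refine ⟨n₁ + n₂ + n₃, fun n hn => ?_⟩
  rw [h1 n (by omega)]
  have h4 : posedValue k n = oneSided k n :=
    le_antisymm (h3 n (by omega)) (Finset.sup_le (fun i _ => h2 n (by omega) i))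
  rw [h4]
  rfl

/-- The posed formula holds for all large `n` exactly when some `k_i` exceeds
`2 (m - i + 1)`. -/
theorem main_iff {m : ℕ} (hm : 1 ≤ m) (k : Fin m → ℕ) (hanti : Antitone k)
    (hk : ∀ i, 2 ≤ k i) :
    (∃ n₁, ∀ n, n₁ ≤ n → extremalNumber n (wheels k) = posedValue k n) ↔
      ∃ i : Fin m, 2 * (m - i) < k i := by
  constructor
  · rintro ⟨n₁, h1⟩
    by_contra hcon
    push Not at hcon
    obtain ⟨n₂, h2⟩ := posed_lt hm k hk hcon
    have h3 := h1 (n₁ + n₂) (by omega)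
    have h4 := h2 (n₁ + n₂) (by omega)
    omega
  · rintro ⟨i, hi⟩
    obtain ⟨n₁, h1⟩ := main_value hm k hanti hk
    obtain ⟨n₂, h2⟩ := posed_ge k hanti hk
    refine ⟨n₁ + n₂ + m, fun n hn => ?_⟩
    rw [h1 n (by omega)]
    apply max_eq_left
    exact le_trans (Thval_le_tval k i hi (by omega)) (h2 n (by omega) i)

end Pool.Agent.MP_f45649_co
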